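import Pool.Agent.H36.ENR.Stmts2

/-!
# Row BRG of the board `enr`: elements of order dividing `q + 1` and the law, `PSL(2,q)`
-/

set_option autoImplicit false

namespace Pool.ENR

open Pool.Agent.H81.ENG Pool.Agent.H55.NEU

theorem BRG.cube {F : Type} [Field F] (t : F) (ht : t = 1) (h2 : (2 : F) = 0) :
    (pr (mk2 0 (-1) 1 t (by ring)) : PS F) ^ 3 = 1 := by
  have h1 : (mk2 0 (-1) 1 t (by ring) : SL2 F) ^ 3 = 1 := by
    rw [pow_succ, pow_two]
    apply sl_ext
    · rw [mul_00, mul_00, mul_01]
      simp only [mk2_00, mk2_01, mk2_10, mk2_11, Matrix.SpecialLinearGroup.coe_one,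
        Matrix.one_apply_eq]
      rw [ht]
      linear_combination -h2
    · rw [mul_01, mul_00, mul_01]
      simp only [mk2_00, mk2_01, mk2_10, mk2_11, Matrix.SpecialLinearGroup.coe_one]
      rw [ht, Matrix.one_apply_ne (by decide)]
      ring
    · rw [mul_10, mul_10, mul_11]
      simp only [mk2_00, mk2_01, mk2_10, mk2_11, Matrix.SpecialLinearGroup.coe_one]
      rw [ht, Matrix.one_apply_ne (by decide)]
      ring
    · rw [mul_11, mul_10, mul_11]
      simp only [mk2_00, mk2_01, mk2_10, mk2_11, Matrix.SpecialLinearGroup.coe_one,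
        Matrix.one_apply_eq]
      rw [ht]
      linear_combination -h2
  rw [← map_pow, h1, map_one]

theorem brg_thm (hNSP : NSPStmt) (hBRP : BRPStmt) (hTR3 : TR3Stmt) : BRGStmt := by
  intro F _ _ p r f a d hpf hrf _ hcard h4 hp2 hpr ha hdvd hlaw
  have hp : p.Prime := hpf.out
  obtain ⟨t, n, ht4, hord, -⟩ := hNSP F p r f a hcard hp2 hpr ha hdvd
  by_cases hc : t = 1 ∧ (2 : F) = 0
  · obtain ⟨ht, h2⟩ := hc
    have h3 : p ^ a ∣ 3 := by
      rw [← hord]
      exact orderOf_dvd_of_pow_eq_one (BRG.cube t ht h2)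
    have hpa : p ^ a = 3 := by
      rcases (Nat.dvd_prime Nat.prime_three).1 h3 with h | h
      · exfalso
        have := Nat.one_lt_pow (by omega : a ≠ 0) hp.one_lt
        omega
      · exact h
    rw [hpa] at hdvd ⊢
    refine hTR3 F h2 h4 ?_ d hlaw
    intro w hw
    have h31 : (1 : F) + 1 + 1 ≠ 0 := by
      intro h
      have : (1 : F) = 0 := by linear_combination h - h2
      exact one_ne_zero this
    have hw1 : w ≠ 1 := by
      rintro rfl
      apply h31
      linear_combination hw
    have hw0 : w ≠ 0 := by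
      rintro rfl
      simp at hw
    have hw3 : w ^ 3 = 1 := by linear_combination (w - 1) * hw
    have hord3 : orderOf (Units.mk0 w hw0) = 3 := by
      refine orderOf_eq_prime ?_ ?_
      · ext
        simp [hw3]
      · intro h
        apply hw1
        have := congrArg Units.val h
        simpa using this
    have h5 : 3 ∣ Nat.card Fˣ := by
      rw [← hord3]
      exact orderOf_dvd_natCard _
    rw [Nat.card_units] at h5
    omega
  · exact hBRP F p a d t hp hp2 ha ht4 hc hord hlaw

end Pool.ENR
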