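import Pool.Agent.H29.ENR.Stmts10
import Pool.Agent.H16.ENR.SER

/-!
Row OUT of board enr: automorphisms of order a power of `p` and the normaliser of a Sylow
subgroup.
-/

set_option autoImplicit false

namespace Pool.ENR

open Pool.Agent.H81.ENG
open scoped commutatorElement Pointwise

/-- a part of prime power order which does not commute with `x` -/
theorem out_qpart {T : Type} [Group T] (p : ℕ) (x : T) (k : ℕ) : ∀ n : T, n ^ k = 1 → ¬ p ∣ k →
    n * x ≠ x * n → ∃ m q a : ℕ, q.Prime ∧ q ≠ p ∧ (n ^ m) ^ (q ^ a) = 1 ∧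
      n ^ m * x ≠ x * n ^ m := by
  induction k using Nat.recOnPosPrimePosCoprime with
  | prime_pow q a hq ha =>
    intro n hn hp hx
    refine ⟨1, q, a, hq, ?_, by simpa using hn, by simpa using hx⟩
    rintro rfl
    exact hp (dvd_pow_self q ha.ne')
  | zero => intro n _ hp; exact absurd (dvd_zero p) hp
  | one =>
    intro n hn _ hx
    rw [pow_one] at hn
    rw [hn, one_mul, mul_one] at hx
    exact absurd rfl hx
  | coprime a b ha hb hab iha ihb =>
    intro n hn hp hx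
    have h1 : n ^ a * x ≠ x * n ^ a ∨ n ^ b * x ≠ x * n ^ b := by
      by_contra hcon
      push Not at hcon
      obtain ⟨ca, cb⟩ := hcon
      apply hx
      have hbez := Nat.gcd_eq_gcd_ab a b
      rw [Nat.Coprime.gcd_eq_one hab] at hbez
      have hn' : n = (n ^ a) ^ (Nat.gcdA a b) * (n ^ b) ^ (Nat.gcdB a b) := by
        rw [← zpow_natCast n a, ← zpow_natCast n b, ← zpow_mul, ← zpow_mul, ← zpow_add, ← hbez]
        simp
      have c1 : Commute ((n ^ a) ^ (Nat.gcdA a b)) x :=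
        (show Commute (n ^ a) x from ca).zpow_left _
      have c2 : Commute ((n ^ b) ^ (Nat.gcdB a b)) x :=
        (show Commute (n ^ b) x from cb).zpow_left _
      have c3 := c1.mul_left c2
      rw [← hn'] at c3
      exact c3.eq
    rcases h1 with h1 | h1
    · obtain ⟨m, q, e, hq, hqp, h2, h3⟩ := ihb (n ^ a) (by rw [← pow_mul]; exact hn)
        (fun h => hp (h.mul_left a)) h1
      exact ⟨a * m, q, e, hq, hqp, by rw [pow_mul]; exact h2, by rw [pow_mul]; exact h3⟩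
    · obtain ⟨m, q, e, hq, hqp, h2, h3⟩ := iha (n ^ b) (by rw [← pow_mul, mul_comm]; exact hn)
        (fun h => hp (h.mul_right b)) h1
      exact ⟨b * m, q, e, hq, hqp, by rw [pow_mul]; exact h2, by rw [pow_mul]; exact h3⟩

/-- a conjugate of `σ n` by an element of `P` is `n` -/
theorem out_fix {T : Type} [Group T] [Finite T] (p q a : ℕ) [Fact p.Prime] [Fact q.Prime]
    (hqp : q ≠ p) (P : Subgroup T) (hP : IsPGroup p P) (σ : MulAut T) (n : T)
    (hn : n ^ (q ^ a) = 1) (hnP : ∀ x, x ∈ P ↔ n * x * n⁻¹ ∈ P) (hsn : σ n * n⁻¹ ∈ P) :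
    ∃ t ∈ P, t * σ n * t⁻¹ = n := by
  classical
  have : Fintype P := Fintype.ofFinite P
  let f : P → P := fun t => ⟨n * (t : T) * (σ n)⁻¹, by
    have h : n * (t : T) * (σ n)⁻¹ = (n * t * n⁻¹) * (σ n * n⁻¹)⁻¹ := by group
    rw [h]
    exact P.mul_mem ((hnP _).1 t.2) (P.inv_mem hsn)⟩
  have hf : Function.Injective f := by
    intro s t hst
    have h := congrArg Subtype.val hst
    have h' : n * (s : T) * (σ n)⁻¹ = n * (t : T) * (σ n)⁻¹ := h
    exact Subtype.ext (mul_left_cancel (mul_right_cancel h'))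
  let F : Equiv.Perm P := Equiv.ofBijective f (Finite.injective_iff_bijective.1 hf)
  have hF : ∀ (m : ℕ) (t : P), (((F ^ m) t : P) : T) = n ^ m * (t : T) * ((σ n) ^ m)⁻¹ := by
    intro m
    induction m with
    | zero => intro t; simp
    | succ m ih =>
      intro t
      rw [pow_succ', Equiv.Perm.mul_apply]
      have h1 : ((F ((F ^ m) t) : P) : T) = n * (((F ^ m) t : P) : T) * (σ n)⁻¹ := rfl
      rw [h1, ih t, pow_succ' n m, pow_succ (σ n) m]
      group
  have hF1 : F ^ (q ^ a) = 1 := by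
    ext t
    rw [hF, hn, ← map_pow, hn, map_one, inv_one, one_mul, mul_one]
    rfl
  have hcard : ¬ q ∣ Fintype.card P := by
    intro hd
    obtain ⟨e, he⟩ := (IsPGroup.iff_card).1 hP
    rw [← Nat.card_eq_fintype_card, he] at hd
    have h1 := (Fact.out : q.Prime).dvd_of_dvd_pow hd
    exact hqp ((Nat.prime_dvd_prime_iff_eq Fact.out Fact.out).1 h1)
  obtain ⟨t, ht⟩ := Equiv.Perm.exists_fixed_point_of_prime hcard hF1
  refine ⟨t, t.2, ?_⟩
  have h1 : n * (t : T) * (σ n)⁻¹ = t := congrArg Subtype.val ht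
  have h2 : n * (t : T) = t * σ n := by
    rw [mul_inv_eq_iff_eq_mul] at h1
    exact h1
  rw [← h2, mul_assoc, mul_inv_cancel, mul_one]

/-- the section -/
theorem out_sec {T : Type} [Group T] [Finite T] (p N : ℕ) [Fact p.Prime] (P : Subgroup T)
    (hP : IsPGroup p P) (σ : MulAut T) (hσ : σ ^ (p ^ N) = 1) (hσP : ∀ x, x ∈ P ↔ σ x ∈ P)
    (t : T) (ht : t ∈ P) (n : T) (k : ℕ) (hn : n ^ k = 1) (hpk : ¬ p ∣ k)
    (hnP : ∀ x, x ∈ P ↔ n * x * n⁻¹ ∈ P) (htn : t * σ n * t⁻¹ = n)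
    (hex : ∃ x ∈ P, n * x ≠ x * n) : Gal2 p 1 σ := by
  have hpp : p.Prime := Fact.out
  let lam : T →* Equiv.Perm T := MulAction.toPermHom T T
  have hlam : Function.Injective lam := MulAction.toPerm_injective
  have hrel : ∀ (f : MulAut T) (x : T), MulAut.toPerm T f * lam x * (MulAut.toPerm T f)⁻¹ =
      lam (f x) := by
    intro f x
    rw [mul_inv_eq_iff_eq_mul]
    ext y
    show f (x * y) = f x * f y
    exact map_mul f x y
  let sg : Equiv.Perm T := MulAut.toPerm T σ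
  let Q : Subgroup (Equiv.Perm T) := Subgroup.zpowers sg ⊔ P.map lam
  have hPQ : ∀ x ∈ P, lam x ∈ Q := fun x hx =>
    (le_sup_right : P.map lam ≤ Q) (Subgroup.mem_map_of_mem lam hx)
  have hsQ : sg ∈ Q := (le_sup_left : Subgroup.zpowers sg ≤ Q) (Subgroup.mem_zpowers sg)
  have hQ : IsPGroup p Q := by
    apply IsPGroup.to_sup_of_normal_right'
    · rintro ⟨x, hx⟩
      obtain ⟨i, rfl⟩ := Subgroup.mem_zpowers_iff.1 hx
      refine ⟨N, Subtype.ext ?_⟩
      rw [Subgroup.coe_pow, Subgroup.coe_one]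
      change (sg ^ i) ^ (p ^ N) = 1
      rw [← zpow_natCast, ← zpow_mul, mul_comm i, zpow_mul, zpow_natCast]
      have : sg ^ (p ^ N) = 1 := by
        show (MulAut.toPerm T σ) ^ (p ^ N) = 1
        rw [← map_pow, hσ, map_one]
      rw [this, one_zpow]
    · exact hP.map lam
    · rw [Subgroup.zpowers_le, Subgroup.mem_normalizer_iff]
      intro y
      constructor
      · rintro ⟨x, hx, rfl⟩
        refine ⟨σ x, (hσP x).1 hx, ?_⟩
        exact (hrel σ x).symm
      · rintro ⟨x, hx, hxy⟩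
        refine ⟨σ⁻¹ x, ?_, ?_⟩
        · show σ⁻¹ x ∈ P
          rw [hσP, MulAut.apply_inv_self]
          exact hx
        · have h1 := hrel σ (σ⁻¹ x)
          rw [MulAut.apply_inv_self, hxy] at h1
          exact mul_left_cancel (mul_right_cancel h1)
  let L : ℕ → Subgroup (Equiv.Perm T) := fun i => Q.lowerCentralSeries i
  have hnil : Group.IsNilpotent Q := hQ.isNilpotent
  obtain ⟨r, hr⟩ := Q.isNilpotent_iff_lowerCentralSeries.1 hnil
  have hLmap : ∀ i, (L i).map (MulAut.conj (lam n)).toMonoidHom = L i := by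
    intro i
    show (Q.lowerCentralSeries i).map _ = Q.lowerCentralSeries i
    rw [Subgroup.map_lowerCentralSeries]
    congr 1
    have hle : ∀ m : T, (∀ x ∈ P, m * x * m⁻¹ ∈ P) → m * (σ m)⁻¹ ∈ P →
        Q.map (MulAut.conj (lam m)).toMonoidHom ≤ Q := by
      intro m hm1 hm2
      show (Subgroup.zpowers sg ⊔ P.map lam).map _ ≤ Q
      rw [Subgroup.map_sup, sup_le_iff]
      constructor
      · rw [MonoidHom.map_zpowers, Subgroup.zpowers_le]
        show lam m * sg * (lam m)⁻¹ ∈ Q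
        have h1 : lam m * sg * (lam m)⁻¹ = lam (m * (σ m)⁻¹) * sg := by
          have h2 := hrel σ m
          rw [map_mul, map_inv, ← h2]
          show lam m * sg * (lam m)⁻¹ = lam m * (sg * lam m * sg⁻¹)⁻¹ * sg
          group
        rw [h1]
        exact Q.mul_mem (hPQ _ hm2) hsQ
      · rintro _ ⟨_, ⟨x, hx, rfl⟩, rfl⟩
        show lam m * lam x * (lam m)⁻¹ ∈ Q
        rw [← map_mul, ← map_inv, ← map_mul]
        exact hPQ _ (hm1 x hx)
    have hn1 : n * (σ n)⁻¹ ∈ P := by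
      have h1 : n * (σ n)⁻¹ = (n * t⁻¹ * n⁻¹) * t := by
        have h2 : σ n = t⁻¹ * n * t := by
          calc σ n = t⁻¹ * (t * σ n * t⁻¹) * t := by group
            _ = t⁻¹ * n * t := by rw [htn]
        rw [h2]
        group
      rw [h1]
      exact P.mul_mem ((hnP _).1 (P.inv_mem ht)) ht
    apply le_antisymm
    · exact hle n (fun x hx => (hnP x).1 hx) hn1
    · have h1 := hle n⁻¹ (fun x hx => by
        rw [hnP]
        have : n * (n⁻¹ * x * n⁻¹⁻¹) * n⁻¹ = x := by group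
        rw [this]
        exact hx) (by
        rw [hnP]
        have : n * (n⁻¹ * (σ n⁻¹)⁻¹) * n⁻¹ = (n * (σ n)⁻¹)⁻¹ := by
          rw [map_inv]
          group
        rw [this]
        exact P.inv_mem hn1)
      intro y hy
      refine ⟨lam n⁻¹ * y * (lam n⁻¹)⁻¹, h1 ⟨y, hy, rfl⟩, ?_⟩
      show lam n * (lam n⁻¹ * y * (lam n⁻¹)⁻¹) * (lam n)⁻¹ = y
      rw [map_inv]
      group
  have hLn : ∀ i (y : Equiv.Perm T), y ∈ L i ↔ lam n * y * (lam n)⁻¹ ∈ L i :=
    fun i => ser_inv (lam n) (L i) (hLmap i)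
  have hLQ : ∀ i, L i ≤ Q := fun i => Q.lowerCentralSeries_antitone (Nat.zero_le i)
  have hLs : ∀ i, ∀ s ∈ Q, ∀ y, y ∈ L i ↔ s * y * s⁻¹ ∈ L i := by
    intro i s hs y
    have h1 := Q.self_le_normalizer_lowerCentralSeries i hs
    rw [Subgroup.mem_normalizer_iff] at h1
    exact h1 y
  let S : ℕ → Subgroup T := fun i => (L i).comap lam ⊓ P
  have hS : ∀ i x, x ∈ S i ↔ lam x ∈ L i ∧ x ∈ P := fun i x => Iff.rfl
  have hle : ∀ i, S (i + 1) ≤ S i := fun i x hx =>
    ⟨Q.lowerCentralSeries_antitone (Nat.le_succ i) hx.1, hx.2⟩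
  have hSn : ∀ i x, x ∈ S i ↔ n * x * n⁻¹ ∈ S i := by
    intro i x
    rw [hS, hS, ← hnP x, hLn i (lam x), map_mul, map_mul, map_inv]
  have hcomm : ∀ i, ∀ s ∈ Q, ∀ y ∈ L i, s * y * s⁻¹ * y⁻¹ ∈ L (i + 1) := by
    intro i s hs y hy
    have h1 : ⁅y, s⁆ ∈ L (i + 1) := Subgroup.commutator_mem_commutator hy hs
    have h2 := (L (i + 1)).inv_mem h1
    rw [commutatorElement_inv, commutatorElement_def] at h2
    exact h2
  suffices h : ∃ i, ∃ x ∈ S i, n * x * n⁻¹ * x⁻¹ ∉ S (i + 1) by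
    obtain ⟨i, x, hx, hx'⟩ := h
    have htau : ∀ y, lam ((MulAut.conj t * σ) y) = (lam t * sg) * lam y * (lam t * sg)⁻¹ := by
      intro y
      show lam (t * σ y * t⁻¹) = _
      rw [map_mul, map_mul, map_inv, ← hrel σ y]
      show lam t * (sg * lam y * sg⁻¹) * (lam t)⁻¹ = _
      group
    have htQ : lam t * sg ∈ Q := Q.mul_mem (hPQ t ht) hsQ
    have htP : ∀ y, y ∈ P ↔ (MulAut.conj t * σ) y ∈ P := by
      intro y
      show y ∈ P ↔ t * σ y * t⁻¹ ∈ P
      rw [hσP y]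
      constructor
      · intro h
        exact P.mul_mem (P.mul_mem ht h) (P.inv_mem ht)
      · intro h
        have h1 := P.mul_mem (P.mul_mem (P.inv_mem ht) h) ht
        have h2 : t⁻¹ * (t * σ y * t⁻¹) * t = σ y := by group
        rwa [h2] at h1
    refine ⟨t, S i, S (i + 1), n, k, 1, ?_, hle i, ?_, Nat.ModEq.refl 1, ?_, ?_, hSn i,
      hSn (i + 1), hn, hpk, ?_, x, hx, ?_⟩
    · exact hP.to_le (fun y hy => hy.2)
    · intro y hy z hz
      refine ⟨?_, P.mul_mem (P.mul_mem (P.mul_mem hy.2 hz.2) (P.inv_mem hy.2)) (P.inv_mem hz.2)⟩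
      show lam (y * z * y⁻¹ * z⁻¹) ∈ L (i + 1)
      rw [map_mul, map_mul, map_mul, map_inv, map_inv]
      exact hcomm i (lam y) (hPQ y hy.2) (lam z) hz.1
    · intro y
      rw [hS, hS, ← htP y, htau, ← hLs (i + 1) _ htQ]
    · intro y hy
      rw [pow_one]
      refine ⟨?_, P.mul_mem ((htP y).1 hy.2) (P.inv_mem hy.2)⟩
      show lam ((MulAut.conj t * σ) y * y⁻¹) ∈ L (i + 1)
      rw [map_mul, htau, map_inv]
      exact hcomm i _ htQ _ hy.1
    · have h1 : (MulAut.conj t * σ) n * n⁻¹ = 1 := by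
        show t * σ n * t⁻¹ * n⁻¹ = 1
        rw [htn, mul_inv_cancel]
      rw [h1]
      exact (S i).one_mem
    · rw [Nat.sub_self, pow_zero, pow_one]
      exact hx'
  by_contra hcon
  push Not at hcon
  have key : ∀ j ≤ r, ∀ x ∈ S (r - j), n * x = x * n := by
    intro j
    induction j with
    | zero =>
      intro _ x hx
      rw [Nat.sub_zero] at hx
      have h1 : lam x ∈ (⊥ : Subgroup (Equiv.Perm T)) := by
        rw [← hr]
        exact hx.1
      rw [Subgroup.mem_bot] at h1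
      have h2 : x = 1 := hlam (by rw [h1, map_one])
      rw [h2, mul_one, one_mul]
    | succ j ih =>
      intro hj x hx
      have h1 := hcon _ x hx
      have h2 : r - (j + 1) + 1 = r - j := by omega
      rw [h2] at h1
      obtain ⟨c, hc⟩ : ∃ c, c = n * x * n⁻¹ * x⁻¹ := ⟨_, rfl⟩
      rw [← hc] at h1
      have h3 := ih (by omega) c h1
      have h4 : n * x * n⁻¹ = c * x := by rw [hc]; group
      have h5 := ser_pow n x c h4 h3 k
      rw [hn, inv_one, mul_one, one_mul] at h5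
      have h6 : c ^ k = 1 := by
        have : c ^ k * x = 1 * x := by rw [one_mul]; exact h5.symm
        exact mul_right_cancel this
      obtain ⟨e, he⟩ := hP ⟨c, h1.2⟩
      have h7 : c ^ p ^ e = 1 := by
        have := congrArg Subtype.val he
        simpa using this
      have h8 : Nat.Coprime (p ^ e) k :=
        Nat.Coprime.pow_left e ((Nat.Prime.coprime_iff_not_dvd hpp).mpr hpk)
      have h9 : c = 1 := by
        rw [← orderOf_eq_one_iff]
        exact Nat.eq_one_of_dvd_coprimes h8 (orderOf_dvd_of_pow_eq_one h7)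
          (orderOf_dvd_of_pow_eq_one h6)
      rw [h9, one_mul] at h4
      exact mul_inv_eq_iff_eq_mul.mp h4
  obtain ⟨x, hx, hne⟩ := hex
  apply hne
  apply key r le_rfl
  rw [Nat.sub_self]
  exact ⟨hPQ x hx, hx⟩

theorem out_thm (hFXY : FXYStmt) : OUTStmt := by
  intro T _ _ p N _ σ hσ hex hne
  have hp : p.Prime := Fact.out
  obtain ⟨P₀, n₀, k₀, hn₀, hk₀, hP₀, x₀, hx₀, hnx₀⟩ := hex
  obtain ⟨P, hP⟩ := hFXY T p p N σ hp hp hσ (not_dvd_card_sylow p T)
  obtain ⟨g, hg⟩ := MulAction.exists_smul_eq T P₀ P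
  have hmem : ∀ x, x ∈ P ↔ g⁻¹ * x * g ∈ P₀ := by
    intro x
    rw [← hg, Sylow.smul_def]
    change x ∈ MulAut.conj g • (P₀ : Subgroup T) ↔ _
    rw [Subgroup.mem_pointwise_smul_iff_inv_smul_mem]
    show (MulAut.conj g)⁻¹ x ∈ (P₀ : Subgroup T) ↔ _
    rw [MulAut.conj_inv_apply]
    rfl
  obtain ⟨m, q, a, hq, hqp, hn1, hn2⟩ := out_qpart p x₀ k₀ n₀ hn₀ hk₀ hnx₀
  have hm : ∀ j : ℕ, ∀ x, x ∈ P₀ ↔ n₀ ^ j * x * (n₀ ^ j)⁻¹ ∈ P₀ := by
    intro j
    induction j with
    | zero => intro x; simp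
    | succ j ih =>
      intro x
      rw [ih x, hP₀, pow_succ']
      have : n₀ * (n₀ ^ j * x * (n₀ ^ j)⁻¹) * n₀⁻¹ = n₀ * n₀ ^ j * x * (n₀ * n₀ ^ j)⁻¹ := by
        group
      rw [this]
  have : Fact q.Prime := ⟨hq⟩
  obtain ⟨n, hndef⟩ : ∃ n, n = g * n₀ ^ m * g⁻¹ := ⟨_, rfl⟩
  have hnP : ∀ x, x ∈ (P : Subgroup T) ↔ n * x * n⁻¹ ∈ (P : Subgroup T) := by
    intro x
    show x ∈ P ↔ n * x * n⁻¹ ∈ P
    rw [hmem, hmem, hm m, hndef]
    have : g⁻¹ * (g * n₀ ^ m * g⁻¹ * x * (g * n₀ ^ m * g⁻¹)⁻¹) * g =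
        n₀ ^ m * (g⁻¹ * x * g) * (n₀ ^ m)⁻¹ := by group
    rw [this]
  have hnq : n ^ (q ^ a) = 1 := by
    have : n = MulAut.conj g (n₀ ^ m) := by rw [hndef]; rfl
    rw [this, ← map_pow, hn1, map_one]
  have hxn : ∃ x ∈ (P : Subgroup T), n * x ≠ x * n := by
    refine ⟨g * x₀ * g⁻¹, ?_, ?_⟩
    · show g * x₀ * g⁻¹ ∈ P
      rw [hmem]
      have : g⁻¹ * (g * x₀ * g⁻¹) * g = x₀ := by group
      rw [this]
      exact hx₀
    · intro h
      apply hn2
      rw [hndef] at h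
      have h1 : g * (n₀ ^ m * x₀) * g⁻¹ = g * (x₀ * n₀ ^ m) * g⁻¹ := by
        have h2 : g * (n₀ ^ m * x₀) * g⁻¹ = g * n₀ ^ m * g⁻¹ * (g * x₀ * g⁻¹) := by group
        have h3 : g * (x₀ * n₀ ^ m) * g⁻¹ = g * x₀ * g⁻¹ * (g * n₀ ^ m * g⁻¹) := by group
        rw [h2, h3, h]
      exact mul_left_cancel (mul_right_cancel h1)
  have hpq : ¬ p ∣ q ^ a := by
    intro hd
    exact hqp ((Nat.prime_dvd_prime_iff_eq hp hq).1 (hp.dvd_of_dvd_pow hd)).symm
  by_cases hc : ∃ y ∈ Subgroup.normalizer ((P : Subgroup T) : Set T), σ y * y⁻¹ ∉ P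
  · left
    obtain ⟨y, hy, hy'⟩ := hc
    refine ⟨Subgroup.normalizer ((P : Subgroup T) : Set T), P, ?_, hP, Subgroup.le_normalizer,
      ?_, ?_, ?_, y, hy, ?_⟩
    · intro x
      rw [Subgroup.mem_normalizer_iff, Subgroup.mem_normalizer_iff]
      constructor
      · intro h z
        have h1 := h (σ⁻¹ z)
        have h2 := hP (σ⁻¹ z)
        rw [MulAut.apply_inv_self] at h2
        have h3 := hP (x * σ⁻¹ z * x⁻¹)
        rw [map_mul, map_mul, map_inv, MulAut.apply_inv_self] at h3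
        exact h2.symm.trans (h1.trans h3)
      · intro h z
        have h1 := h (σ z)
        have h2 := hP z
        have h3 := hP (x * z * x⁻¹)
        rw [map_mul, map_mul, map_inv] at h3
        exact h2.trans (h1.trans h3.symm)
    · intro z hz x hx
      rw [Subgroup.mem_normalizer_iff] at hz
      exact (hz x).1 hx
    · intro hd
      exact P.not_dvd_index (hd.trans (Subgroup.relIndex_dvd_index_of_le Subgroup.le_normalizer))
    · intro h0
      have hd : p ∣ (P : Subgroup T).relIndex (Subgroup.normalizer ((P : Subgroup T) : Set T)) := by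
        rw [h0]
        exact dvd_zero p
      exact P.not_dvd_index (hd.trans (Subgroup.relIndex_dvd_index_of_le Subgroup.le_normalizer))
    · rw [pow_zero, pow_one]
      exact hy'
  · right
    push Not at hc
    have hnN : n ∈ Subgroup.normalizer ((P : Subgroup T) : Set T) := by
      rw [Subgroup.mem_normalizer_iff]
      exact hnP
    obtain ⟨t, ht, htn⟩ := out_fix p q a hqp P P.isPGroup' σ n hnq hnP (hc n hnN)
    exact out_sec p N P P.isPGroup' σ hσ hP t ht n (q ^ a) hnq hpq hnP htn hxn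

end Pool.ENR
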