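import Pool.Agent.H40.ENR.Q3Va

/-!
# Row Q3V of the board `enr`: the quaternions in `SL2`
-/

set_option autoImplicit false

namespace Pool.ENR

open Pool.Agent.H81.ENG Pool.Agent.H55.NEU

namespace Q3V

variable {F : Type} [Field F]

/-- conjugation by an invertible matrix -/
noncomputable def cj (g : Matrix (Fin 2) (Fin 2) F) (hg : g.det ≠ 0) : SL2 F →* SL2 F where
  toFun X := ⟨g * (X : Matrix (Fin 2) (Fin 2) F) * g⁻¹, by
    rw [Matrix.det_mul, Matrix.det_mul, X.2, mul_one, ← Matrix.det_mul,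
      Matrix.mul_nonsing_inv _ (isUnit_iff_ne_zero.2 hg), Matrix.det_one]⟩
  map_one' := by
    apply Subtype.ext
    show g * (1 : Matrix (Fin 2) (Fin 2) F) * g⁻¹ = 1
    rw [mul_one, Matrix.mul_nonsing_inv _ (isUnit_iff_ne_zero.2 hg)]
  map_mul' X Y := by
    apply Subtype.ext
    show g * ((X : Matrix (Fin 2) (Fin 2) F) * (Y : Matrix (Fin 2) (Fin 2) F)) * g⁻¹ =
      (g * (X : Matrix (Fin 2) (Fin 2) F) * g⁻¹) * (g * (Y : Matrix (Fin 2) (Fin 2) F) * g⁻¹)
    have h : g⁻¹ * g = 1 := Matrix.nonsing_inv_mul _ (isUnit_iff_ne_zero.2 hg)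
    calc g * ((X : Matrix (Fin 2) (Fin 2) F) * (Y : Matrix (Fin 2) (Fin 2) F)) * g⁻¹
        = g * (X : Matrix (Fin 2) (Fin 2) F) * 1 * (Y : Matrix (Fin 2) (Fin 2) F) * g⁻¹ := by
          simp only [mul_one, mul_assoc]
      _ = _ := by rw [← h]; simp only [mul_assoc]

theorem cj_coe (g : Matrix (Fin 2) (Fin 2) F) (hg : g.det ≠ 0) (X : SL2 F) :
    ((cj g hg X : SL2 F) : Matrix (Fin 2) (Fin 2) F) =
      g * (X : Matrix (Fin 2) (Fin 2) F) * g⁻¹ := rfl

/-- a basis `e, I e` -/
theorem exists_basis (h2 : (2 : F) ≠ 0) (I : Matrix (Fin 2) (Fin 2) F) (hI : I * I = -1)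
    (hn : ∀ x : F, I ≠ x • (1 : Matrix (Fin 2) (Fin 2) F)) :
    ∃ g : Matrix (Fin 2) (Fin 2) F, g.det ≠ 0 ∧ I * g = g * !![0, -1; 1, 0] := by
  obtain ⟨p, q, r, s, rfl⟩ : ∃ p q r s : F, I = !![p, q; r, s] :=
    ⟨I 0 0, I 0 1, I 1 0, I 1 1, Matrix.eta_fin_two I⟩
  rw [Matrix.mul_fin_two] at hI
  have e00 : p * p + q * r = -1 := by
    have := congrFun (congrFun hI 0) 0
    simpa using this
  have e01 : p * q + q * s = 0 := by
    have := congrFun (congrFun hI 0) 1
    simpa using this
  have e10 : r * p + s * r = 0 := by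
    have := congrFun (congrFun hI 1) 0
    simpa using this
  have e11 : r * q + s * s = -1 := by
    have := congrFun (congrFun hI 1) 1
    simpa using this
  have hs : s = -p := by
    by_contra hne
    have h0 : p + s ≠ 0 := fun h => hne (by linear_combination h)
    have hq : q = 0 := by
      have : q * (p + s) = 0 := by linear_combination e01
      exact (mul_eq_zero.1 this).resolve_right h0
    have hr : r = 0 := by
      have : r * (p + s) = 0 := by linear_combination e10
      exact (mul_eq_zero.1 this).resolve_right h0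
    have hps : p = s := by
      have : (p + s) * (p - s) = 0 := by linear_combination e00 - e11
      exact sub_eq_zero.1 ((mul_eq_zero.1 this).resolve_left h0)
    apply hn p
    rw [hq, hr, ← hps]
    ext a b
    fin_cases a <;> fin_cases b <;> simp
  subst hs
  by_cases hr : r = 0
  · by_cases hq : q = 0
    · have hp : p ≠ 0 := by
        rintro rfl
        rw [hq] at e00
        have : (1 : F) = 0 := by linear_combination e00
        exact one_ne_zero this
      refine ⟨!![1, p; 1, -p], ?_, ?_⟩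
      · rw [Matrix.det_fin_two_of]
        intro h
        have : 2 * p = 0 := by linear_combination -h
        rcases mul_eq_zero.1 this with h | h
        · exact h2 h
        · exact hp h
      · rw [Matrix.mul_fin_two, Matrix.mul_fin_two, hr, hq]
        rw [hq] at e00
        ext a b
        fin_cases a <;> fin_cases b <;> simp <;> linear_combination e00
    · refine ⟨!![0, q; 1, -p], ?_, ?_⟩
      · rw [Matrix.det_fin_two_of]
        intro h
        apply hq
        linear_combination -h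
      · rw [Matrix.mul_fin_two, Matrix.mul_fin_two]
        ext a b
        fin_cases a <;> fin_cases b <;> simp
        · ring
        · linear_combination e00
  · refine ⟨!![1, p; 0, r], ?_, ?_⟩
    · rw [Matrix.det_fin_two_of]
      intro h
      apply hr
      linear_combination h
    · rw [Matrix.mul_fin_two, Matrix.mul_fin_two]
      ext a b
      fin_cases a <;> fin_cases b <;> simp
      · linear_combination e00
      · ring

theorem cube_eq (x y z w : F) (hd : x * w - y * z = 1) (ht : x + w = -1) :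
    (mk2 x y z w hd) ^ 3 = 1 := by
  rw [pow_succ, pow_two, mk2_mul, mk2_mul]
  apply sl_ext
  · show _ = (1 : F)
    rw [mk2_00]
    linear_combination (x * (x + w + 1) - 2 * x - 1) * ht - (2 * x + w) * hd
  · show _ = (0 : F)
    rw [mk2_01]
    linear_combination (y * (x + w - 1)) * ht - y * hd
  · show _ = (0 : F)
    rw [mk2_10]
    linear_combination (z * (x + w - 1)) * ht - z * hd
  · show _ = (1 : F)
    rw [mk2_11]
    linear_combination (w * (x + w + 1) - 2 * w - 1) * ht - (2 * w + x) * hd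

theorem sq_of_pr {X : SL2 F} (h : pr X = 1) : X * X = 1 := by
  have h0 : pr X = pr (1 : SL2 F) := by rw [h, map_one]
  obtain ⟨r, hr, hX⟩ := pr_eq_iff.1 h0
  have h00 : (1 : F) = r * X 0 0 := hX 0 0
  have h01 : (0 : F) = r * X 0 1 := hX 0 1
  have h10 : (0 : F) = r * X 1 0 := hX 1 0
  have h11 : (1 : F) = r * X 1 1 := hX 1 1
  have e00 : X 0 0 = r := by linear_combination (-X 0 0) * hr - r * h00
  have e01 : X 0 1 = 0 := by linear_combination (-X 0 1) * hr - r * h01
  have e10 : X 1 0 = 0 := by linear_combination (-X 1 0) * hr - r * h10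
  have e11 : X 1 1 = r := by linear_combination (-X 1 1) * hr - r * h11
  apply sl_ext
  · rw [mul_00, e00, e01, e10]
    show _ = (1 : F)
    linear_combination hr
  · rw [mul_01, e00, e01, e11]
    show _ = (0 : F)
    ring
  · rw [mul_10, e00, e11, e10]
    show _ = (0 : F)
    ring
  · rw [mul_11, e11, e01, e10]
    show _ = (1 : F)
    linear_combination hr

theorem pr_neg {M N : SL2 F} (h : ∀ i j, N i j = -(M i j)) : pr M = pr N :=
  pr_eq_iff.2 ⟨-1, by ring, fun i j => by rw [h]; ring⟩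

end Q3V

open Q3V in
theorem q3v_thm (hQ3U : Q3UStmt) (hQTL : QTLStmt) : Q3VStmt := by
  intro F _ _ h2 I σ hI hn hσ
  obtain ⟨g, hg, hgI⟩ := exists_basis h2 I hI hn
  have hgu : IsUnit g.det := isUnit_iff_ne_zero.2 hg
  have hgi : g⁻¹ * g = 1 := Matrix.nonsing_inv_mul _ hgu
  have hig : g * g⁻¹ = 1 := Matrix.mul_nonsing_inv _ hgu
  obtain ⟨a, b, hab⟩ := exists_sum_sq (F := F) h2
  -- the half
  obtain ⟨h, hh⟩ : ∃ h : F, 2 * h = 1 := ⟨2⁻¹, mul_inv_cancel₀ h2⟩
  let φ : SL2 F →* PS F := pr.comp (cj g hg)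
  -- the action of `σ` in the new coordinates
  have hM : (1 + I) * g = g * !![1, -1; 1, 1] := by
    rw [add_mul, one_mul, hgI]
    have e : (!![1, -1; 1, 1] : Matrix (Fin 2) (Fin 2) F) = 1 + !![0, -1; 1, 0] := by
      ext a b
      fin_cases a <;> fin_cases b <;> simp
    rw [e, mul_add, mul_one]
  have hM' : g⁻¹ * (1 + I) = !![1, -1; 1, 1] * g⁻¹ := by
    calc g⁻¹ * (1 + I) = g⁻¹ * ((1 + I) * g) * g⁻¹ := by
          rw [mul_assoc, mul_assoc (1 + I) g, hig, mul_one]
      _ = !![1, -1; 1, 1] * g⁻¹ := by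
          rw [hM, ← mul_assoc g⁻¹, hgi, one_mul]
  have hσφ : ∀ X X' : SL2 F, (X' : Matrix (Fin 2) (Fin 2) F) * !![1, -1; 1, 1] =
      !![1, -1; 1, 1] * (X : Matrix (Fin 2) (Fin 2) F) → σ (φ X) = φ X' := by
    intro X X' hX
    apply hσ
    rw [cj_coe, cj_coe, mul_assoc _ g⁻¹, hM', mul_assoc g, ← mul_assoc _ _ g⁻¹, hX,
      ← mul_assoc (1 + I), ← mul_assoc (1 + I), hM]
    simp only [mul_assoc]
  -- the elements
  let I0 : SL2 F := mk2 0 (-1) 1 0 (by ring)
  let J0 : SL2 F := mk2 a b b (-a) (by linear_combination -hab)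
  let N0 : SL2 F := mk2 (h * (-1 + a - b)) (h * (-1 + a + b)) (h * (1 + a + b))
    (h * (-1 - a + b)) (by linear_combination (-2 * h * h) * hab + (2 * h + 1) * hh)
  have hφneg : ∀ X Y : SL2 F, (∀ i j, Y i j = -(X i j)) → φ X = φ Y := by
    intro X Y hXY
    apply pr_neg
    have hm : (Y : Matrix (Fin 2) (Fin 2) F) = -(X : Matrix (Fin 2) (Fin 2) F) := by
      ext i j
      exact hXY i j
    intro i j
    have e : ((cj g hg Y : SL2 F) : Matrix (Fin 2) (Fin 2) F) =
        -((cj g hg X : SL2 F) : Matrix (Fin 2) (Fin 2) F) := by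
      rw [cj_coe, cj_coe, hm, mul_neg, neg_mul]
    exact congrFun (congrFun e i) j
  have hi : φ I0 * φ I0 = 1 := by
    rw [← map_mul, ← map_one φ]
    refine (hφneg _ _ ?_).symm
    rw [mk2_mul]
    intro i j
    fin_cases i <;> fin_cases j <;> simp [mk2]
  have hj : φ J0 * φ J0 = 1 := by
    rw [← map_mul, ← map_one φ]
    refine (hφneg _ _ ?_).symm
    rw [mk2_mul]
    intro i j
    fin_cases i <;> fin_cases j <;> simp [mk2]
    · exact hab
    · ring
    · ring
    · linear_combination hab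
  have hij : φ I0 * φ J0 = φ J0 * φ I0 := by
    rw [← map_mul, ← map_mul]
    refine hφneg _ _ ?_
    rw [mk2_mul, mk2_mul]
    intro i j
    fin_cases i <;> fin_cases j <;> simp [mk2]
  have hN3 : (φ N0) ^ 3 = 1 := by
    rw [← map_pow, ← map_one φ]
    congr 1
    exact cube_eq _ _ _ _ _ (by linear_combination -hh)
  have hNI : φ N0 * φ I0 * (φ N0)⁻¹ = φ I0 * φ J0 := by
    rw [mul_inv_eq_iff_eq_mul, ← map_mul, ← map_mul, ← map_mul]
    congr 1
    rw [mk2_mul, mk2_mul, mk2_mul]
    apply mk2_congr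
    · linear_combination (-h) * hab
    · linear_combination (h) * hab
    · linear_combination (-h) * hab
    · linear_combination (-h) * hab
  have hNJ : φ N0 * φ J0 * (φ N0)⁻¹ = φ I0 := by
    rw [mul_inv_eq_iff_eq_mul, ← map_mul, ← map_mul]
    congr 1
    rw [mk2_mul, mk2_mul]
    apply mk2_congr
    · linear_combination (h) * hab
    · linear_combination (-h) * hab
    · linear_combination (h) * hab
    · linear_combination (h) * hab
  have s1 : σ (φ I0) = φ I0 := by
    apply hσφ
    show !![0, -1; 1, 0] * !![1, -1; 1, 1] = !![1, -1; 1, 1] * !![0, -1; 1, 0]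
    rw [Matrix.mul_fin_two, Matrix.mul_fin_two]
    ext i j
    fin_cases i <;> fin_cases j <;> simp
  have s2 : σ (φ J0) = φ I0 * φ J0 := by
    rw [← map_mul]
    apply hσφ
    rw [mk2_mul]
    show !![_, _; _, _] * !![1, -1; 1, 1] = !![1, -1; 1, 1] * !![a, b; b, -a]
    rw [Matrix.mul_fin_two, Matrix.mul_fin_two]
    ext i j
    fin_cases i <;> fin_cases j <;> simp <;> ring
  have s3 : σ (φ N0) = φ I0 * (φ N0)⁻¹ := by
    have e1 : φ I0 * (φ N0)⁻¹ = φ (I0 * N0⁻¹) := by rw [map_mul, map_inv]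
    let N1 : SL2 F := mk2 (-(h * (1 + a + b))) (h * (-1 + a - b)) (-(h * (-1 - a + b)))
      (h * (-1 + a + b)) (by linear_combination (-2 * h * h) * hab + (2 * h + 1) * hh)
    have e2 : φ N1 = φ (I0 * N0⁻¹) := by
      apply hφneg
      rw [mk2_inv, mk2_mul]
      intro i j
      fin_cases i <;> fin_cases j <;> simp [mk2, N1]
    rw [e1, ← e2]
    apply hσφ
    show !![_, _; _, _] * !![1, -1; 1, 1] = !![1, -1; 1, 1] * !![_, _; _, _]
    rw [Matrix.mul_fin_two, Matrix.mul_fin_two]
    ext i j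
    fin_cases i <;> fin_cases j <;> simp <;> ring
  have hφs : ∀ x : PS F, ∃ X : SL2 F, φ X = x := by
    intro x
    obtain ⟨X, rfl⟩ := pr_surj x
    refine ⟨⟨g⁻¹ * (X : Matrix (Fin 2) (Fin 2) F) * g, ?_⟩, ?_⟩
    · rw [Matrix.det_mul, Matrix.det_mul, X.2, mul_one, ← Matrix.det_mul, hgi, Matrix.det_one]
    · show pr (cj g hg _) = pr X
      congr 1
      apply Subtype.ext
      show g * (g⁻¹ * (X : Matrix (Fin 2) (Fin 2) F) * g) * g⁻¹ = X
      rw [mul_assoc g⁻¹, ← mul_assoc g, hig, one_mul, mul_assoc, hig, mul_one]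
  have s4 : ∀ x, σ (σ x) = φ I0 * x * (φ I0)⁻¹ := by
    intro x
    obtain ⟨X, rfl⟩ := hφs x
    obtain ⟨x, y, z, w, hd, rfl⟩ : ∃ (x y z w : F) (hd : x * w - y * z = 1),
      X = mk2 x y z w hd := ⟨_, _, _, _, _, eq_mk2 X⟩
    let X1 : SL2 F := mk2 (h * (x - z - y + w)) (h * (x - z + y - w)) (h * (x + z - y - w))
      (h * (x + z + y + w)) (by linear_combination (4 * h * h) * hd + (2 * h + 1) * hh)
    have e1 : σ (φ (mk2 x y z w hd)) = φ X1 := by
      apply hσφ
      show !![_, _; _, _] * !![1, -1; 1, 1] = !![1, -1; 1, 1] * !![_, _; _, _]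
      rw [Matrix.mul_fin_two, Matrix.mul_fin_two]
      ext i j
      fin_cases i <;> fin_cases j <;> simp
      · linear_combination (x - z) * hh
      · linear_combination (y - w) * hh
      · linear_combination (x + z) * hh
      · linear_combination (y + w) * hh
    have e2 : σ (φ X1) = φ (mk2 w (-z) (-y) x (by linear_combination hd)) := by
      apply hσφ
      show !![_, _; _, _] * !![1, -1; 1, 1] = !![1, -1; 1, 1] * !![_, _; _, _]
      rw [Matrix.mul_fin_two, Matrix.mul_fin_two]
      ext i j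
      fin_cases i <;> fin_cases j <;> simp
      · linear_combination (z - w) * hh
      · linear_combination (z + w) * hh
      · linear_combination (y - x) * hh
      · linear_combination (-x - y) * hh
    rw [e1, e2, ← map_inv, ← map_mul, ← map_mul]
    congr 1
    rw [mk2_inv, mk2_mul, mk2_mul]
    apply mk2_congr <;> ring
  have hne : φ I0 * φ N0 ≠ φ N0 * φ I0 := by
    intro he
    have e1 : φ J0 = 1 := by
      have e2 : φ N0 * φ I0 * (φ N0)⁻¹ = φ I0 := by rw [← he, mul_inv_cancel_right]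
      rw [hNI] at e2
      exact mul_eq_left.1 e2
    have e3 : cj g hg (J0 * J0) = 1 := by
      rw [map_mul]
      exact sq_of_pr e1
    have e4 : g * ((J0 * J0 : SL2 F) : Matrix (Fin 2) (Fin 2) F) * g⁻¹ = 1 := congrArg Subtype.val e3
    have e5 : ((J0 * J0 : SL2 F) : Matrix (Fin 2) (Fin 2) F) = 1 := by
      calc ((J0 * J0 : SL2 F) : Matrix (Fin 2) (Fin 2) F)
          = g⁻¹ * (g * ((J0 * J0 : SL2 F) : Matrix (Fin 2) (Fin 2) F) * g⁻¹) * g := by
            rw [mul_assoc g, ← mul_assoc g⁻¹, hgi, one_mul, mul_assoc, hgi, mul_one]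
        _ = 1 := by rw [e4, mul_one, hgi]
    have e6 := congrFun (congrFun e5 0) 0
    have e7 : (J0 * J0 : SL2 F) 0 0 = a * a + b * b := by rw [mul_00]; rfl
    have e8 : a * a + b * b = 1 := by rw [← e7]; exact e6
    apply h2
    linear_combination hab - e8
  exact wr_of_rel hQ3U hQTL σ (φ I0) (φ J0) (φ N0) hi hj hij hN3 hNI hNJ s1 s2 s3 s4 hne

end Pool.ENR
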