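import Pool.Agent.H29.ENR.Stmts5

/-!
# Row Q3V of the board `enr`: the abstract part (a subgroup of type `A₄`)
-/

set_option autoImplicit false

namespace Pool.ENR

open Pool.Agent.H81.ENG Pool.Agent.H55.NEU

namespace Q3V

section

variable {T : Type} [Group T]

theorem four_mul {i j : T} (hij : i * j = j * i) (a b c d : ℕ) :
    i ^ a * j ^ b * (i ^ c * j ^ d) = i ^ (a + c) * j ^ (b + d) := by
  have hc : Commute j i := hij.symm
  calc i ^ a * j ^ b * (i ^ c * j ^ d) = i ^ a * (j ^ b * i ^ c) * j ^ d := by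
        simp only [mul_assoc]
    _ = i ^ a * (i ^ c * j ^ b) * j ^ d := by rw [(hc.pow_pow b c).eq]
    _ = i ^ (a + c) * j ^ (b + d) := by
        rw [pow_add, pow_add]
        simp only [mul_assoc]

theorem four_sq {i j : T} (hi : i * i = 1) (hj : j * j = 1) (hij : i * j = j * i) (a b : ℕ) :
    i ^ a * j ^ b * (i ^ a * j ^ b) = 1 := by
  rw [four_mul hij, ← two_mul, ← two_mul, pow_mul, pow_mul, pow_two, pow_two, hi, hj, one_pow,
    one_pow, one_mul]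

/-- the subgroup of the `i ^ a * j ^ b` -/
def VV (i j : T) (hi : i * i = 1) (hj : j * j = 1) (hij : i * j = j * i) : Subgroup T where
  carrier := {x | ∃ a b : ℕ, x = i ^ a * j ^ b}
  one_mem' := ⟨0, 0, by simp⟩
  mul_mem' := by
    rintro _ _ ⟨a, b, rfl⟩ ⟨c, d, rfl⟩
    exact ⟨a + c, b + d, four_mul hij a b c d⟩
  inv_mem' := by
    rintro _ ⟨a, b, rfl⟩
    exact ⟨a, b, inv_eq_of_mul_eq_one_right (four_sq hi hj hij a b)⟩

variable {i j : T} {hi : i * i = 1} {hj : j * j = 1} {hij : i * j = j * i}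

theorem mem_VV {x : T} : x ∈ VV i j hi hj hij ↔ ∃ a b : ℕ, x = i ^ a * j ^ b := Iff.rfl

theorem i_mem : i ∈ VV i j hi hj hij := ⟨1, 0, by simp⟩

theorem j_mem : j ∈ VV i j hi hj hij := ⟨0, 1, by simp⟩

theorem VV_comm {x y : T} (hx : x ∈ VV i j hi hj hij) (hy : y ∈ VV i j hi hj hij) :
    x * y = y * x := by
  obtain ⟨a, b, rfl⟩ := hx
  obtain ⟨c, d, rfl⟩ := hy
  rw [four_mul hij, four_mul hij, add_comm a, add_comm b]

theorem VV_sq {x : T} (hx : x ∈ VV i j hi hj hij) : x ^ 2 = 1 := by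
  obtain ⟨a, b, rfl⟩ := hx
  rw [pow_two]
  exact four_sq hi hj hij a b

theorem card_VV : Nat.card (VV i j hi hj hij) ≤ 4 := by
  let f : Fin 2 × Fin 2 → VV i j hi hj hij := fun x => ⟨i ^ (x.1 : ℕ) * j ^ (x.2 : ℕ), _, _, rfl⟩
  have hf : Function.Surjective f := by
    rintro ⟨_, a, b, rfl⟩
    refine ⟨(⟨a % 2, Nat.mod_lt _ (by norm_num)⟩, ⟨b % 2, Nat.mod_lt _ (by norm_num)⟩), ?_⟩
    apply Subtype.ext
    show i ^ (a % 2) * j ^ (b % 2) = i ^ a * j ^ b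
    rw [← pow_eq_pow_mod a (by rw [pow_two]; exact hi), ← pow_eq_pow_mod b (by rw [pow_two]; exact hj)]
  have h := Nat.card_le_card_of_surjective f hf
  simpa using h

/-- the subgroup of the `v * n ^ l`, `v ∈ V` -/
def GG (V : Subgroup T) (n : T) (hn : n ^ 3 = 1) (hV : ∀ l : ℕ, ∀ v ∈ V, n ^ l * v * (n ^ l)⁻¹ ∈ V) :
    Subgroup T where
  carrier := {x | ∃ v ∈ V, ∃ l : ℕ, x = v * n ^ l}
  one_mem' := ⟨1, V.one_mem, 0, by simp⟩
  mul_mem' := by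
    rintro _ _ ⟨v, hv, l, rfl⟩ ⟨w, hw, m, rfl⟩
    refine ⟨v * (n ^ l * w * (n ^ l)⁻¹), V.mul_mem hv (hV l w hw), l + m, ?_⟩
    rw [pow_add]
    group
  inv_mem' := by
    rintro _ ⟨v, hv, l, rfl⟩
    have h1 : (n ^ l)⁻¹ = n ^ (2 * l) := by
      apply inv_eq_of_mul_eq_one_right
      rw [← pow_add, show l + 2 * l = 3 * l by ring, pow_mul, hn, one_pow]
    refine ⟨n ^ (2 * l) * v⁻¹ * (n ^ (2 * l))⁻¹, hV _ _ (V.inv_mem hv), 2 * l, ?_⟩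
    rw [inv_mul_cancel_right, mul_inv_rev, h1]

end

theorem pow_conj {T : Type} [Group T] (V : Subgroup T) (n : T) (h : ∀ v ∈ V, n * v * n⁻¹ ∈ V) :
    ∀ l : ℕ, ∀ v ∈ V, n ^ l * v * (n ^ l)⁻¹ ∈ V := by
  intro l
  induction l with
  | zero => intro v hv; simpa using hv
  | succ l ih =>
    intro v hv
    have h1 := ih _ (h v hv)
    have h2 : n ^ (l + 1) * v * (n ^ (l + 1))⁻¹ = n ^ l * (n * v * n⁻¹) * (n ^ l)⁻¹ := by
      rw [pow_succ, mul_inv_rev]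
      group
    rw [h2]
    exact h1

theorem wr_of_rel (hQ3U : Q3UStmt) (hQTL : QTLStmt) {T : Type} [Group T] [Finite T]
    (σ : MulAut T) (i j n : T) (hi : i * i = 1) (hj : j * j = 1) (hij : i * j = j * i)
    (hn : n ^ 3 = 1) (h1 : n * i * n⁻¹ = i * j) (h2 : n * j * n⁻¹ = i) (s1 : σ i = i)
    (s2 : σ j = i * j) (s3 : σ n = i * n⁻¹) (s4 : ∀ x, σ (σ x) = i * x * i⁻¹)
    (hne : i * n ≠ n * i) : ∀ b : ℕ, 1 ≤ b → Wr 2 σ b 1 := by
  intro b hb d hL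
  set V : Subgroup T := VV i j hi hj hij with hV
  have hiV : i ∈ V := i_mem
  have hjV : j ∈ V := j_mem
  have hnV : ∀ v ∈ V, n * v * n⁻¹ ∈ V := by
    rintro _ ⟨a, c, rfl⟩
    have e : n * (i ^ a * j ^ c) * n⁻¹ = (n * i * n⁻¹) ^ a * (n * j * n⁻¹) ^ c := by
      rw [conj_pow, conj_pow]
      group
    rw [e, h1, h2]
    exact V.mul_mem (V.pow_mem (V.mul_mem hiV hjV) _) (V.pow_mem hiV _)
  have hnl := pow_conj V n hnV
  have hσV : ∀ v ∈ V, σ v ∈ V := by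
    rintro _ ⟨a, c, rfl⟩
    rw [map_mul, map_pow, map_pow, s1, s2]
    exact V.mul_mem (V.pow_mem hiV _) (V.pow_mem (V.mul_mem hiV hjV) _)
  set Γ : Subgroup T := GG V n hn hnl with hΓ
  have hVΓ : V ≤ Γ := fun v hv => ⟨v, hv, 0, by simp⟩
  have hnΓ : n ∈ Γ := ⟨1, V.one_mem, 1, by simp⟩
  have hiΓ : i ∈ Γ := hVΓ hiV
  have hσ1 : ∀ x ∈ Γ, σ x ∈ Γ := by
    rintro _ ⟨v, hv, l, rfl⟩
    rw [map_mul, map_pow, s3]
    exact Γ.mul_mem (hVΓ (hσV v hv)) (Γ.pow_mem (Γ.mul_mem hiΓ (Γ.inv_mem hnΓ)) _)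
  have hσΓ : ∀ x, x ∈ Γ ↔ σ x ∈ Γ := by
    intro x
    refine ⟨hσ1 x, fun hx => ?_⟩
    have h3 := hσ1 _ hx
    rw [s4] at h3
    have h4 : x = i⁻¹ * (i * x * i⁻¹) * i := by group
    rw [h4]
    exact Γ.mul_mem (Γ.mul_mem (Γ.inv_mem hiΓ) h3) hiΓ
  set τ : MulAut Γ := restr σ Γ hσΓ with hτ
  have hL' : SL (tsh τ (2 ^ b)) d := by
    refine hQTL T Γ σ τ Γ hσΓ (MonoidHom.id Γ) Function.surjective_id ?_ (2 ^ b) d
      (by positivity) hL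
    intro x
    rfl
  have hnorm : (V.subgroupOf Γ).Normal := by
    constructor
    rintro ⟨x, hxΓ⟩ hx ⟨_, v, hv, l, rfl⟩
    rw [Subgroup.mem_subgroupOf] at hx ⊢
    have hx' : x ∈ V := hx
    have e : ((⟨v * n ^ l, v, hv, l, rfl⟩ : Γ) * ⟨x, hxΓ⟩ * (⟨v * n ^ l, v, hv, l, rfl⟩ : Γ)⁻¹ : Γ)
        = (v * (n ^ l * x * (n ^ l)⁻¹) * v⁻¹ : T) := by
      show (v * n ^ l) * x * (v * n ^ l)⁻¹ = _
      group
    rw [e]
    exact V.mul_mem (V.mul_mem hv (hnl l x hx')) (V.inv_mem hv)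
  have hcard : Nat.card (V.subgroupOf Γ) ≤ 4 := by
    rw [Nat.card_congr (Subgroup.subgroupOfEquivOfLe hVΓ).toEquiv]
    exact card_VV
  have key := hQ3U Γ (V.subgroupOf Γ) ⟨i, hiΓ⟩ ⟨n, hnΓ⟩ τ b hb
    (fun x hx y hy => Subtype.ext (VV_comm (Subgroup.mem_subgroupOf.1 hx)
      (Subgroup.mem_subgroupOf.1 hy)))
    (fun x hx => Subtype.ext (VV_sq (Subgroup.mem_subgroupOf.1 hx)))
    hcard (Subtype.ext hn)
    (by
      rintro ⟨_, v, hv, l, rfl⟩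
      exact ⟨⟨v, hVΓ hv⟩, Subgroup.mem_subgroupOf.2 hv, l, Subtype.ext rfl⟩)
    (fun x hx => Subgroup.mem_subgroupOf.2 (hσV _ (Subgroup.mem_subgroupOf.1 hx)))
    ⟨⟨i, hiΓ⟩, Subgroup.mem_subgroupOf.2 hiV, Subtype.ext s3⟩
    (Subgroup.mem_subgroupOf.2 hiV) (Subtype.ext s1)
    (fun x => Subtype.ext (s4 x))
    (fun h => hne (congrArg Subtype.val h)) d hL'
  exact key.trans (dvd_ed d)

end Q3V

end Pool.ENR
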